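import Pool.Agent.Lib.MP_eee601_co.Ins.Cub

/-!
# Bounded degree and linear bandwidth do not give goodness, for every degree bound

For every `ε > 0` and every `C` there are `r ≥ 2` and `n₀` such that for all `n ≥ n₀` there is a
connected graph `G` with `n` vertices, maximum degree at most `3` and bandwidth at most `ε n` whose
Ramsey number against the complete graph with `r` vertices exceeds `C (r - 1) n`. In particular `G`
is not `K_r`-good, so for no `d ≥ 3` is there an `ε_d` as in the question.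
-/

set_option autoImplicit false

namespace Pool.Agent.Results.MP_eee601_co.EveryDegree

/-- Every red/blue colouring of the edges of the complete graph with `N` vertices has a red copy of
`G` or a blue copy of `H`; that is, `R(G, H) ≤ N`. (`F` is the graph of the red edges.) -/
def Arrows {n k : ℕ} (N : ℕ) (G : SimpleGraph (Fin n)) (H : SimpleGraph (Fin k)) : Prop :=
  ∀ F : SimpleGraph (Fin N), G.IsContained F ∨ H.IsContained Fᶜ

/-- `σ(H)`, the minimum size of a colour class over all proper `χ(H)`-colourings of `H`. -/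
noncomputable def sigma {k : ℕ} (H : SimpleGraph (Fin k)) : ℕ :=
  sInf {s | ∃ (c : H.Coloring (Fin H.chromaticNumber.toNat)) (i : Fin H.chromaticNumber.toNat),
    (c.colorClass i).ncard = s}

/-- `G` is `H`-good: `R(G, H) = (χ(H) - 1) (|G| - 1) + σ(H)`. -/
def IsGood {n k : ℕ} (G : SimpleGraph (Fin n)) (H : SimpleGraph (Fin k)) : Prop :=
  IsLeast {N | Arrows N G H} ((H.chromaticNumber.toNat - 1) * (n - 1) + sigma H)

/-- The bandwidth of `G` is at most `b`: the vertices can be numbered so that adjacent vertices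
differ by at most `b`. -/
def BandwidthLe {n : ℕ} (G : SimpleGraph (Fin n)) (b : ℝ) : Prop :=
  ∃ π : Fin n ≃ Fin n, ∀ u v : Fin n, G.Adj u v →
    |((π u : ℕ) : ℝ) - ((π v : ℕ) : ℝ)| ≤ b

lemma sigma_top_le (r : ℕ) (hr : 2 ≤ r) : sigma (⊤ : SimpleGraph (Fin r)) ≤ 1 := by
  have hχ : (⊤ : SimpleGraph (Fin r)).chromaticNumber.toNat = r := by
    rw [SimpleGraph.chromaticNumber_top]
    simp
  refine Nat.sInf_le ⟨SimpleGraph.Coloring.mk (fun v => Fin.cast hχ.symm v) ?_,
    Fin.cast hχ.symm ⟨0, by omega⟩, ?_⟩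
  · intro v w hvw hc
    exact hvw (Fin.cast_injective _ hc)
  · rw [Set.ncard_eq_one]
    refine ⟨⟨0, by omega⟩, ?_⟩
    ext x
    simp only [SimpleGraph.Coloring.colorClass, Set.mem_ofPred_eq, Set.mem_singleton_iff]
    constructor
    · intro h
      exact Fin.cast_injective _ h
    · rintro rfl
      rfl

open Pool.Agent.EeIns in
/-- **Goodness fails for every degree bound `d ≥ 3` and every linear bandwidth.** -/
theorem result (ε : ℝ) (hε : 0 < ε) (C : ℝ) :
    ∃ r : ℕ, 2 ≤ r ∧ ∃ n₀ : ℕ, ∀ n : ℕ, n₀ ≤ n →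
      ∃ G : SimpleGraph (Fin n), G.Connected ∧ (∀ v : Fin n, (G.neighborSet v).ncard ≤ 3) ∧
        BandwidthLe G (ε * n) ∧ ¬ IsGood G (⊤ : SimpleGraph (Fin r)) ∧
        ∀ N : ℕ, Arrows N G (⊤ : SimpleGraph (Fin r)) → C * (((r : ℝ) - 1) * n) < N := by
  classical
  -- normalise
  set ε' : ℝ := min ε 1 with hε'
  have hε'0 : 0 < ε' := lt_min hε one_pos
  have hε'1 : ε' ≤ 1 := min_le_right _ _
  have hε'ε : ε' ≤ ε := min_le_left _ _
  set C' : ℝ := max C 1 with hC'
  have hC'1 : 1 ≤ C' := le_max_right _ _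
  have hC'C : C ≤ C' := le_max_left _ _
  have hC'0 : 0 < C' := by linarith
  set γ : ℝ := ε' / (200000 * C') with hγ
  have hγ0 : 0 < γ := by positivity
  obtain ⟨V, iV, F, hV, hind, s0, hs0⟩ := nomap γ hγ0
  obtain ⟨v0⟩ : Nonempty V := Fintype.card_pos_iff.1 hV
  set q : ℕ := Fintype.card V with hq
  have hγq : (1 : ℝ) ≤ γ * q := by
    have := hind {v0} (by
      intro x hx y hy
      rw [Finset.mem_singleton] at hx hy
      subst hx
      subst hy
      exact F.loopless.irrefl _)
    simpa using this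
  set a : ℕ := ⌊γ * q⌋₊ with ha
  have ha1 : 1 ≤ a := by
    rw [ha]
    exact Nat.le_floor (by simpa using hγq)
  have haq : (a : ℝ) ≤ γ * q := Nat.floor_le (by positivity)
  refine ⟨a + 1, by omega, ⌈(400000 + 32 * (s0 + 1)) / ε'⌉₊ + 1, fun n hn => ?_⟩
  have hnR : (400000 + 32 * ((s0 : ℝ) + 1)) ≤ ε' * n := by
    have h1 : (400000 + 32 * ((s0 : ℝ) + 1)) / ε' ≤ n := by
      refine (Nat.le_ceil _).trans ?_
      exact_mod_cast (by omega : ⌈(400000 + 32 * ((s0 : ℝ) + 1)) / ε'⌉₊ ≤ n)
    rw [div_le_iff₀ hε'0] at h1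
    linarith
  have hn0 : 0 < n := by omega
  have hn0R : (0 : ℝ) < n := by exact_mod_cast hn0
  set s : ℕ := ⌊ε' * n / 32⌋₊ with hs
  have hs_le : (s : ℝ) ≤ ε' * n / 32 := Nat.floor_le (by positivity)
  have hs_lt : ε' * n / 32 < s + 1 := Nat.lt_floor_add_one _
  have hs0s : s0 ≤ s := by
    have : (s0 : ℝ) < s + 1 := by
      have : (s0 : ℝ) + 1 ≤ ε' * n / 32 := by linarith
      linarith
    have h2 : s0 < s + 1 := by exact_mod_cast this
    omega
  have hspos : 0 < s := by
    have : (0 : ℝ) < s := by linarith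
    exact_mod_cast this
  have hsn : 32 * s ≤ n := by
    have : (32 : ℝ) * s ≤ n := by nlinarith
    exact_mod_cast this
  obtain ⟨π, hπ⟩ := hs0 s hs0s
  set m : ℕ := s / 2800 with hm
  have hms : 2800 * m ≤ s := Nat.mul_div_le s 2800
  have hmlt : (s : ℝ) < 2800 * (m + 1) := by
    have : s < 2800 * (m + 1) := by omega
    exact_mod_cast this
  -- the main bound
  have main : ∀ N : ℕ, Arrows N (cub n s π) (⊤ : SimpleGraph (Fin (a + 1))) →
      C' * ((a : ℝ) * n) < N := by
    intro N hN
    by_contra hcon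
    push Not at hcon
    -- `N ≤ q m`
    have hNq : N ≤ q * m := by
      have e1 : C' * ((a : ℝ) * n) ≤ (ε' * n / 200000) * q := by
        have e2 : C' * ((a : ℝ) * n) ≤ C' * ((γ * q) * n) := by gcongr
        refine e2.trans (le_of_eq ?_)
        rw [hγ]
        field_simp
      have e3 : ε' * n / 200000 ≤ m := by linarith
      have e4 : (N : ℝ) ≤ q * m := by
        calc (N : ℝ) ≤ C' * ((a : ℝ) * n) := hcon
          _ ≤ (ε' * n / 200000) * q := e1
          _ ≤ m * q := by gcongr
          _ = q * m := by ring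
      exact_mod_cast e4
    obtain ⟨ι⟩ : Nonempty (Fin N ↪ V × Fin m) := by
      apply Function.Embedding.nonempty_of_card_le
      simpa [Fintype.card_prod, ← hq] using hNq
    let R : SimpleGraph (Fin N) :=
      { Adj := fun x y => x ≠ y ∧ near F (ι x).1 (ι y).1
        symm := ⟨fun x y h => ⟨h.1.symm, near_symm h.2⟩⟩
        loopless := ⟨fun x h => h.1 rfl⟩ }
    rcases hN R with ⟨⟨f⟩⟩ | ⟨⟨g⟩⟩
    · -- red copy
      obtain ⟨φ, hφ⟩ := adm_of_copy F n s m hsn π (fun u => ι (f u))
        (fun u v huv => f.injective (ι.injective huv))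
        (fun u v huv => (f.toHom.map_adj huv).2) v0
      exact hπ φ m hms hφ
    · -- blue clique
      have hg : ∀ i j : Fin (a + 1), i ≠ j → ¬ near F (ι (g i)).1 (ι (g j)).1 := by
        intro i j hij hn'
        have h1 : (Rᶜ).Adj (g i) (g j) := g.toHom.map_adj (by simpa using hij)
        rw [SimpleGraph.compl_adj] at h1
        exact h1.2 ⟨h1.1, hn'⟩
      have hinj : Function.Injective (fun i : Fin (a + 1) => (ι (g i)).1) := by
        intro i j hij
        by_contra hne
        exact hg i j hne (Or.inl hij)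
      have h2 := hind (Finset.univ.image (fun i : Fin (a + 1) => (ι (g i)).1)) (by
        intro x hx y hy hxy
        rw [Finset.mem_image] at hx hy
        obtain ⟨i, _, rfl⟩ := hx
        obtain ⟨j, _, rfl⟩ := hy
        by_cases hij : i = j
        · subst hij
          exact F.loopless.irrefl _ hxy
        · exact hg i j hij (Or.inr hxy))
      rw [Finset.card_image_of_injective _ hinj, Finset.card_univ, Fintype.card_fin] at h2
      have h3 : a + 1 ≤ a := by
        conv_rhs => rw [ha]
        exact Nat.le_floor h2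
      omega
  have hcast : (((a + 1 : ℕ) : ℝ) - 1) = a := by push_cast; ring
  refine ⟨cub n s π, cub_connected n s hn0 π, cub_degree n s π, ?_, ?_, ?_⟩
  · refine ⟨Equiv.refl _, fun u v huv => ?_⟩
    have h1 := cub_bandwidth n s hspos π u v huv
    have h2 : (32 : ℝ) * s ≤ ε * n := by nlinarith
    exact h1.trans h2
  · intro hgood
    have h1 := hgood.1
    rw [Set.mem_ofPred_eq] at h1
    have h2 := main _ h1
    have hχ : (⊤ : SimpleGraph (Fin (a + 1))).chromaticNumber.toNat = a + 1 := by
      rw [SimpleGraph.chromaticNumber_top]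
      simp
    have h3 : ((⊤ : SimpleGraph (Fin (a + 1))).chromaticNumber.toNat - 1) * (n - 1)
        + sigma (⊤ : SimpleGraph (Fin (a + 1))) ≤ a * n := by
      rw [hχ, Nat.add_sub_cancel]
      have h4 := sigma_top_le (a + 1) (by omega)
      obtain ⟨k, rfl⟩ : ∃ k, n = k + 1 := ⟨n - 1, by omega⟩
      rw [Nat.add_sub_cancel, mul_add]
      omega
    have h5 : ((((⊤ : SimpleGraph (Fin (a + 1))).chromaticNumber.toNat - 1) * (n - 1)
        + sigma (⊤ : SimpleGraph (Fin (a + 1))) : ℕ) : ℝ) ≤ (a : ℝ) * n := by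
      exact_mod_cast h3
    have h6 : (a : ℝ) * n ≤ C' * ((a : ℝ) * n) := by
      have : (0 : ℝ) ≤ (a : ℝ) * n := by positivity
      nlinarith
    linarith
  · intro N hN
    have h1 := main N hN
    rw [hcast]
    have : C * ((a : ℝ) * n) ≤ C' * ((a : ℝ) * n) := by gcongr
    linarith

end Pool.Agent.Results.MP_eee601_co.EveryDegree
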